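import Pool.Agent.Y148.OD.Stm3

/-!
# Linear disjointness of independent families over an algebraically closed field
-/

set_option autoImplicit false
set_option linter.style.haveILetI false

namespace Pool.Agent.Y73.OD

open MvPolynomial Pool.Agent.Y148.OD

variable {Ω : Type} [Field Ω]

/-- every element algebraic over `k[B]` has a multiple by a nonzero element of `k[B]` which is a root
of a monic polynomial over the polynomial ring -/
lemma exists_mult {k : Subfield Ω} (B : Set Ω) (hB : AlgebraicIndepOn k id B) {x : Ω}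
    (hx : IsAlgebraic (Algebra.adjoin k B) x) :
    ∃ Y : MvPolynomial B k, Y ≠ 0 ∧
      (aeval (Subtype.val : B → Ω) : MvPolynomial B k →ₐ[k] Ω).toRingHom.IsIntegralElem
        (aeval (Subtype.val : B → Ω) Y * x) := by
  classical
  let φ : MvPolynomial B k →ₐ[k] Ω := aeval (Subtype.val : B → Ω)
  have hinj : Function.Injective φ := hB
  have hrange : φ.range = Algebra.adjoin k B := by
    have := Algebra.adjoin_range_eq_range_aeval k (Subtype.val : B → Ω)
    rw [Subtype.range_coe] at this
    exact this.symm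
  letI : Algebra (MvPolynomial B k) Ω := φ.toRingHom.toAlgebra
  have hal : IsAlgebraic (MvPolynomial B k) x := by
    rw [← hrange] at hx
    let e : MvPolynomial B k ≃+* φ.range := (AlgEquiv.ofInjective φ hinj).toRingEquiv
    have h1 := (isAlgebraic_ringHom_iff_of_comp_eq e (RingHom.id Ω) (fun a b h => h)
      (R := MvPolynomial B k) (S := φ.range) (A := Ω) (B := Ω) (a := x)
      (RingHom.ext fun y => rfl)).1 hx
    exact h1
  obtain ⟨Y, hY, hint⟩ := hal.exists_integral_multiple
  refine ⟨Y, hY, ?_⟩
  obtain ⟨p, hp, hpe⟩ := hint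
  refine ⟨p, hp, ?_⟩
  rw [Algebra.smul_def] at hpe
  exact hpe

lemma isIntegralElem_mul_coe {R S : Type*} [CommRing R] [CommRing S] (f : R →+* S) (r : R) {x : S}
    (hx : f.IsIntegralElem x) : f.IsIntegralElem (f r * x) := by
  letI := f.toAlgebra
  have h1 : IsIntegral R x := hx
  have h2 : IsIntegral R (algebraMap R S r * x) := isIntegral_algebraMap.mul h1
  exact h2

/-- The specialisation argument. -/
lemma core {k K : Subfield Ω} (hk : IsAlgClosed k) (hkK : k ≤ K) (B : Set Ω)
    (hB : AlgebraicIndepOn k id B) (hBK : AlgebraicIndepOn K id B) {n : ℕ} (a p : Fin n → Ω)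
    (ha : ∀ i, IsAlgebraic (Algebra.adjoin k B) (a i)) (hp : ∀ i, p i ∈ K)
    (hlin : LinearIndependent k p) (hrel : ∑ i, a i * p i = 0) (i₀ : Fin n) : a i₀ = 0 := by
  classical
  by_contra hi0
  let φk : MvPolynomial B k →ₐ[k] Ω := aeval (Subtype.val : B → Ω)
  let φ : MvPolynomial B K →ₐ[K] Ω := aeval (Subtype.val : B → Ω)
  let inc : k →+* K := Subfield.inclusion hkK
  have hcomp : ∀ P, φ (MvPolynomial.map inc P) = φk P := by
    intro P
    simp only [φ, φk, aeval_def, eval₂_map]
    rfl
  -- multiples
  choose Y hY hYi using fun i => exists_mult B hB (ha i)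
  obtain ⟨Z, hZ, hZi⟩ := exists_mult B hB (ha i₀).inv
  set f : MvPolynomial B k := (∏ i, Y i) * Z with hf
  have hf0 : f ≠ 0 := mul_ne_zero (Finset.prod_ne_zero_iff.2 fun i _ => hY i) hZ
  have hfi : ∀ i, φk.toRingHom.IsIntegralElem (φk f * a i) := by
    intro i
    have h1 : f = ((∏ j ∈ Finset.univ.erase i, Y j) * Z) * Y i := by
      rw [hf, ← Finset.prod_erase_mul _ _ (Finset.mem_univ i)]
      ring
    rw [h1, map_mul, mul_assoc]
    exact isIntegralElem_mul_coe φk.toRingHom _ (hYi i)
  have hfZ : φk.toRingHom.IsIntegralElem (φk f * (a i₀)⁻¹) := by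
    rw [hf, map_mul, mul_assoc]
    exact isIntegralElem_mul_coe φk.toRingHom _ hZi
  -- a point of `k ^ B`
  have : Infinite k := IsAlgClosed.instInfinite
  obtain ⟨τ, hτ⟩ : ∃ τ : B → k, eval τ f ≠ 0 := by
    by_contra hcon
    push Not at hcon
    exact hf0 (MvPolynomial.funext fun τ => by rw [hcon, map_zero])
  -- the integral closure
  letI : Algebra (MvPolynomial B K) Ω := φ.toRingHom.toAlgebra
  have halg : ∀ P : MvPolynomial B K, algebraMap (MvPolynomial B K) Ω P = φ P := fun _ => rfl
  let C := integralClosure (MvPolynomial B K) Ω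
  let ev : MvPolynomial B K →+* K := eval fun b => inc (τ b)
  have hev : Function.Surjective ev := fun x => ⟨MvPolynomial.C x, by simp [ev]⟩
  have hmax : (RingHom.ker ev).IsMaximal := RingHom.ker_isMaximal_of_surjective ev hev
  have hinj : Function.Injective (algebraMap (MvPolynomial B K) C) := by
    intro x y hxy
    apply hBK
    exact congrArg Subtype.val hxy
  obtain ⟨N, hN, hNc⟩ := Ideal.exists_ideal_over_maximal_of_isIntegral (S := C) (RingHom.ker ev)
    (by rw [(RingHom.injective_iff_ker_eq_bot _).1 hinj]; exact bot_le)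
  letI : Field (C ⧸ N) := Ideal.Quotient.field N
  let π : C →+* C ⧸ N := Ideal.Quotient.mk N
  let ι : K →+* C ⧸ N := (π.comp (algebraMap (MvPolynomial B K) C)).comp MvPolynomial.C
  have hπ : ∀ P : MvPolynomial B K, π (algebraMap (MvPolynomial B K) C P) = ι (ev P) := by
    intro P
    have h1 : P - MvPolynomial.C (ev P) ∈ RingHom.ker ev := by
      rw [RingHom.mem_ker, map_sub]
      simp [ev]
    rw [← hNc, Ideal.mem_comap] at h1
    have h2 := Ideal.Quotient.eq_zero_iff_mem.2 h1
    rw [map_sub, map_sub, sub_eq_zero] at h2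
    exact h2
  -- integral elements over `k[B]`
  have hmem : ∀ x : Ω, φk.toRingHom.IsIntegralElem x → ∃ c : C, (c : Ω) = x ∧ ∃ β : k,
      π c = ι (inc β) := by
    rintro x ⟨q, hq, hqx⟩
    have h1 : IsIntegral (MvPolynomial B K) x := by
      refine ⟨q.map (MvPolynomial.map inc), hq.map _, ?_⟩
      rw [Polynomial.eval₂_map]
      have h2 : (algebraMap (MvPolynomial B K) Ω).comp (MvPolynomial.map inc) = φk.toRingHom :=
        RingHom.ext fun P => hcomp P
      rw [h2]
      exact hqx
    refine ⟨⟨x, h1⟩, rfl, ?_⟩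
    set c : C := ⟨x, h1⟩ with hc
    have h3 : Polynomial.eval₂ ((algebraMap (MvPolynomial B K) C).comp (MvPolynomial.map inc)) c q
        = 0 := by
      apply Subtype.val_injective
      have h4 := Polynomial.hom_eval₂ q
        ((algebraMap (MvPolynomial B K) C).comp (MvPolynomial.map inc)) C.toSubring.subtype c
      have h5 : C.toSubring.subtype.comp
          ((algebraMap (MvPolynomial B K) C).comp (MvPolynomial.map inc)) = φk.toRingHom :=
        RingHom.ext fun P => hcomp P
      rw [h5] at h4
      exact h4.trans hqx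
    have h6 := congrArg π h3
    rw [Polynomial.hom_eval₂, map_zero] at h6
    have h7 : π.comp ((algebraMap (MvPolynomial B K) C).comp (MvPolynomial.map inc)) =
        (ι.comp inc).comp (eval τ) := by
      refine RingHom.ext fun P => ?_
      have h8 := hπ (MvPolynomial.map inc P)
      have h9 : ev (MvPolynomial.map inc P) = inc (eval τ P) := by
        simp only [ev]
        rw [eval_map]
        exact (eval₂_comp _ _ _).symm
      rw [h9] at h8
      exact h8
    rw [h7, ← Polynomial.eval₂_map] at h6
    have hmon : (q.map (eval τ)).Monic := hq.map _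
    have hsp := IsAlgClosed.splits (q.map (eval τ))
    have hroots := hsp.eq_prod_roots_of_monic hmon
    rw [hroots, Polynomial.eval₂_multiset_prod] at h6
    rw [Multiset.prod_eq_zero_iff, Multiset.map_map, Multiset.mem_map] at h6
    obtain ⟨β, _, hβ0⟩ := h6
    rw [Function.comp_apply, Polynomial.eval₂_sub, Polynomial.eval₂_X, Polynomial.eval₂_C,
      sub_eq_zero] at hβ0
    exact ⟨β, hβ0⟩
  choose c hc β hβ using fun i => hmem _ (hfi i)
  obtain ⟨cZ, hcZ, βZ, hβZ⟩ := hmem _ hfZ
  have hpC : ∀ i, ((algebraMap (MvPolynomial B K) C (MvPolynomial.C ⟨p i, hp i⟩) : C) : Ω) = p i := by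
    intro i
    show φ (MvPolynomial.C ⟨p i, hp i⟩) = p i
    simp only [φ, aeval_C]
    rfl
  have hsum : ∑ i, c i * algebraMap (MvPolynomial B K) C (MvPolynomial.C ⟨p i, hp i⟩) = 0 := by
    apply Subtype.val_injective
    rw [AddSubmonoidClass.coe_finsetSum]
    have h1 : ∀ i, ((c i * algebraMap (MvPolynomial B K) C (MvPolynomial.C ⟨p i, hp i⟩) : C) : Ω) =
        φk f * (a i * p i) := by
      intro i
      rw [MulMemClass.coe_mul, hc, hpC]
      ring
    rw [Finset.sum_congr rfl fun i _ => h1 i, ← Finset.mul_sum, hrel, mul_zero]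
    rfl
  have h2 := congrArg π hsum
  rw [map_sum, map_zero] at h2
  have h3 : ∀ i, π (c i * algebraMap (MvPolynomial B K) C (MvPolynomial.C ⟨p i, hp i⟩)) =
      ι (inc (β i) * ⟨p i, hp i⟩) := by
    intro i
    rw [map_mul, map_mul, hβ]
    rfl
  rw [Finset.sum_congr rfl fun i _ => h3 i, ← map_sum] at h2
  have h4 : ∑ i, inc (β i) * (⟨p i, hp i⟩ : K) = 0 := ι.injective (by rw [h2, map_zero])
  have h5 : ∑ i, β i • p i = 0 := by
    have h6 := congrArg Subtype.val h4
    rw [AddSubmonoidClass.coe_finsetSum] at h6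
    exact h6
  have h6 : β i₀ = 0 := Fintype.linearIndependent_iff.1 hlin β h5 i₀
  have h7 : c i₀ * cZ = algebraMap (MvPolynomial B K) C (MvPolynomial.map inc (f * f)) := by
    apply Subtype.val_injective
    rw [MulMemClass.coe_mul, hc, hcZ]
    show _ = φ (MvPolynomial.map inc (f * f))
    rw [hcomp, map_mul φk f f]
    field_simp
  have h8 := congrArg π h7
  rw [map_mul, hβ, h6, map_zero, map_zero, zero_mul, hπ] at h8
  have h9 : ev (MvPolynomial.map inc (f * f)) = 0 := ι.injective (by rw [← h8, map_zero])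
  have h10 : ev (MvPolynomial.map inc (f * f)) = inc (eval τ (f * f)) := by
    simp only [ev]
    rw [eval_map]
    exact (eval₂_comp _ _ _).symm
  rw [h10] at h9
  have h11 : eval τ (f * f) = 0 := inc.injective (by rw [h9, map_zero])
  rw [map_mul, mul_self_eq_zero] at h11
  exact hτ h11

theorem stmLD : StmLD := by
  classical
  intro Ω _ _ _ n k _ hk a p hrk hlin hrel i₀
  set K : Subfield Ω := adj k (Set.range p) with hK
  have hkK : k ≤ K := le_adj_left _ _
  have hpK : ∀ i, p i ∈ K := fun i => subset_adj _ _ ⟨i, rfl⟩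
  have hfin : ∀ (L : Subfield Ω) (f : Fin n → Ω), rk L (Set.range f) ≠ ⊤ := by
    intro L f
    have h1 := rk_le_encard L (Set.range f)
    have h2 : (Set.range f).encard < ⊤ := (Set.finite_range f).encard_lt_top
    exact (h1.trans_lt h2).ne
  have hrK : rk K (Set.range a) = rk k (Set.range a) := by
    rw [rk_union, add_comm (rk k (Set.range a))] at hrk
    exact ENat.add_right_injective_of_ne_top (hfin k p) hrk
  obtain ⟨B, hB⟩ := (AlgebraicIndependent.matroid k Ω).exists_isBasis (Set.range a)
    (Set.subset_univ _)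
  obtain ⟨hBi0, hBs, hBa⟩ := AlgebraicIndependent.matroid_isBasis_iff.1 hB
  have hBi : (AlgebraicIndependent.matroid k Ω).Indep B := hB.indep
  have hBfin : B.Finite := (Set.finite_range a).subset hBs
  have hBr : rk k (Set.range a) = B.encard := hB.eRk_eq_encard
  have hBr2 : rk k B = B.encard := hBi.eRk_eq_encard
  have hz : rk (adj k B) (Set.range a) = 0 := by
    have h1 := rk_adj_union k B (Set.range a)
    rw [Set.union_eq_self_of_subset_left hBs, hBr, hBr2] at h1
    have h2 : B.encard + 0 = B.encard + rk (adj k B) (Set.range a) := by rw [add_zero]; exact h1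
    exact (ENat.add_right_injective_of_ne_top hBfin.encard_lt_top.ne h2).symm
  have hle : rk K (Set.range a) ≤ rk K B := by
    have h1 := rk_adj_union K B (Set.range a)
    have h2 : adj k B ≤ adj K B :=
      adj_le (hkK.trans (le_adj_left _ _)) (subset_adj _ _)
    have h3 := rk_anti h2 (Set.range a)
    rw [hz, nonpos_iff_eq_zero] at h3
    rw [h3, add_zero] at h1
    rw [← h1]
    exact rk_mono _ Set.subset_union_right
  have hBK : AlgebraicIndepOn K id B := by
    have h1 : rk K B = B.encard := le_antisymm (rk_le_encard K B) (by rw [← hBr, ← hrK]; exact hle)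
    exact AlgebraicIndependent.matroid_indep_iff.1
      ((Matroid.indep_iff_eRk_eq_encard_of_finite hBfin).2 h1)
  exact core hk hkK B hBi0 hBK a p (fun i => hBa _ ⟨i, rfl⟩) hpK hlin hrel i₀

end Pool.Agent.Y73.OD
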